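import Mathlib

/-!
# Closed complexity can be bounded along a thick set

Let `x` be the fixed point, starting with `1`, of the morphism `1 ↦ 100001`, `0 ↦ 000000`
(`x n = 1` iff all base-`6` digits of `n` are `0` or `5`). The word `x` is recurrent and aperiodic,
and for `3 · 6^k < n ≤ 4 · 6^k` its only closed factors of length `n` are `0^n` and, if
`n - 6^k = 2 t`, the word `0^t x_0 ⋯ x_{6^k - 1} 0^t`.
-/

set_option autoImplicit false

namespace Pool.Agent.Results.MP_304c86_co.ThickCounterexample

/-- the factor `x_i x_{i+1} ⋯ x_{i+n-1}` -/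
def fac {A : Type} (x : ℕ → A) (i n : ℕ) : List A := (List.range n).map (fun k => x (i + k))

/-- `u` occurs in `w` at the position `k` -/
def OccursAt {A : Type} (u w : List A) (k : ℕ) : Prop := k ≤ w.length ∧ u <+: w.drop k

/-- The word `w` is closed: `|w| ≤ 1`, or some `u`, both a proper prefix and a proper suffix of `w`,
occurs in `w` exactly twice. -/
def Closed {A : Type} (w : List A) : Prop :=
  w.length ≤ 1 ∨ ∃ u : List A, u ≠ w ∧ u <+: w ∧ u <:+ w ∧ {k : ℕ | OccursAt u w k}.encard = 2

/-- the closed complexity `cl_x(n)`: the number of closed factors of `x` of length `n` -/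
noncomputable def cl {A : Type} (x : ℕ → A) (n : ℕ) : ℕ∞ :=
  {w : List A | (∃ i, w = fac x i n) ∧ Closed w}.encard

/-- not ultimately periodic -/
def Aperiodic {A : Type} (x : ℕ → A) : Prop := ¬ ∃ p N : ℕ, 0 < p ∧ ∀ n, N ≤ n → x (n + p) = x n

/-- every factor occurs infinitely often -/
def Recurrent {A : Type} (x : ℕ → A) : Prop := ∀ i n N : ℕ, ∃ j, N ≤ j ∧ fac x j n = fac x i n

/-- there is `g` such that every interval of `g` consecutive integers meets `S` -/
def Syndetic (S : Set ℕ) : Prop := ∃ g : ℕ, ∀ a : ℕ, ∃ n ∈ S, a ≤ n ∧ n < a + g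

/-- `T` contains intervals of every finite length -/
def Thick (T : Set ℕ) : Prop := ∀ l : ℕ, ∃ a : ℕ, ∀ n, a ≤ n → n < a + l → n ∈ T

/-- `S = S₁ ∩ T` with `S₁` syndetic and `T` thick -/
def PiecewiseSyndetic (S : Set ℕ) : Prop := ∃ S₁ T, Syndetic S₁ ∧ Thick T ∧ S = S₁ ∩ T

/-- the statement of Q1: for every aperiodic word over a finite alphabet and every piecewise
syndetic `S` the limit superior of `cl_x(n)` along `S` is `+∞` -/
def Q1 : Prop := ∀ (A : Type) [Finite A] (x : ℕ → A), Aperiodic x →
  ∀ S : Set ℕ, PiecewiseSyndetic S → ∀ B N : ℕ, ∃ n ∈ S, N ≤ n ∧ (B : ℕ∞) ≤ cl x n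

/-! ### Closed factors in terms of positions -/

section general
variable {A : Type} (x : ℕ → A)

lemma fac_length (i n : ℕ) : (fac x i n).length = n := by simp [fac]

lemma fac_getElem (i n k : ℕ) (h : k < (fac x i n).length) : (fac x i n)[k] = x (i + k) := by
  simp [fac]

lemma fac_take {i n m : ℕ} (h : m ≤ n) : (fac x i n).take m = fac x i m := by
  unfold fac
  rw [← List.map_take, List.take_range, min_eq_left h]

lemma fac_drop {i n k : ℕ} (_h : k ≤ n) : (fac x i n).drop k = fac x (i + k) (n - k) := by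
  apply List.ext_getElem
  · simp [fac_length]
  · intro t h1 h2
    rw [List.getElem_drop, fac_getElem, fac_getElem]
    congr 1
    omega

lemma fac_eq_iff {y : ℕ → A} {i j n : ℕ} : fac x i n = fac y j n ↔ ∀ t < n, x (i + t) = y (j + t) := by
  constructor
  · intro h t ht
    have h1 := fac_getElem x i n t (by rw [fac_length]; exact ht)
    have h2 := fac_getElem y j n t (by rw [fac_length]; exact ht)
    rw [← h1, ← h2]
    simp only [h]
  · intro h
    unfold fac
    apply List.map_congr_left
    intro t ht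
    exact h t (List.mem_range.mp ht)

/-- occurrences of a short prefix -/
lemma occursAt_iff {i n m k : ℕ} (_hm : m ≤ n) :
    OccursAt (fac x i m) (fac x i n) k ↔ k + m ≤ n ∧ ∀ t < m, x (i + k + t) = x (i + t) := by
  unfold OccursAt
  rw [fac_length]
  constructor
  · rintro ⟨hk, hp⟩
    rw [fac_drop x hk] at hp
    have h1 := hp.length_le
    rw [fac_length, fac_length] at h1
    have h2 := List.prefix_iff_eq_take.mp hp
    rw [fac_length, fac_take x (by omega)] at h2
    refine ⟨by omega, fun t ht => ?_⟩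
    exact ((fac_eq_iff x).mp h2 t ht).symm
  · rintro ⟨hk, h⟩
    refine ⟨by omega, ?_⟩
    rw [fac_drop x (by omega)]
    rw [List.prefix_iff_eq_take, fac_length, fac_take x (by omega)]
    exact (fac_eq_iff x).mpr fun t ht => (h t ht).symm

lemma closed_fac {i n : ℕ} (hn : 2 ≤ n) (h : Closed (fac x i n)) :
    ∃ m < n, (∀ t < m, x (i + (n - m) + t) = x (i + t)) ∧
      ∀ k, 0 < k → k < n - m → ∃ t < m, x (i + k + t) ≠ x (i + t) := by
  rcases h with h | ⟨u, hne, hpre, hsuf, hcard⟩
  · rw [fac_length] at h; omega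
  · obtain ⟨m, hm⟩ : ∃ m, m = u.length := ⟨_, rfl⟩
    have hmn : m < n := by
      have h1 := hpre.length_le
      rw [fac_length, ← hm] at h1
      rcases Nat.lt_or_ge m n with h2 | h2
      · exact h2
      · exfalso
        apply hne
        apply hpre.eq_of_length_le
        rw [fac_length]; omega
    have hu : u = fac x i m := by
      rw [List.prefix_iff_eq_take, ← hm, fac_take x hmn.le] at hpre
      exact hpre
    subst hu
    have hs : fac x i m = fac x (i + (n - m)) m := by
      rw [List.suffix_iff_eq_drop, fac_length, fac_length, fac_drop x (by omega)] at hsuf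
      rwa [show n - (n - m) = m by omega] at hsuf
    have hb : ∀ t < m, x (i + (n - m) + t) = x (i + t) := fun t ht =>
      ((fac_eq_iff x).mp hs t ht).symm
    refine ⟨m, hmn, hb, fun k hk0 hk => ?_⟩
    by_contra hcon
    push Not at hcon
    have h3 : ({0, k, n - m} : Set ℕ) ⊆ {k : ℕ | OccursAt (fac x i m) (fac x i n) k} := by
      rintro a (rfl | rfl | rfl)
      · exact (occursAt_iff x hmn.le).mpr ⟨by omega, fun t _ => rfl⟩
      · exact (occursAt_iff x hmn.le).mpr ⟨by omega, hcon⟩
      · exact (occursAt_iff x hmn.le).mpr ⟨by omega, hb⟩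
    have h4 := Set.encard_le_encard h3
    rw [hcard, Set.encard_insert_of_notMem (by simp; omega),
      Set.encard_pair (by omega : k ≠ n - m)] at h4
    norm_num at h4

end general

/-! ### The word -/

/-- `x` is the fixed point starting with `1` of the morphism `1 ↦ 100001`, `0 ↦ 000000`
(`true` is `1`, `false` is `0`). -/
def IsFix (x : ℕ → Bool) : Prop :=
  x 0 = true ∧ ∀ n r : ℕ, r < 6 → x (6 * n + r) = (x n && (r == 0 || r == 5))

/-- existence: all base-6 digits are `0` or `5` -/
lemma exists_fix : ∃ x : ℕ → Bool, IsFix x := by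
  refine ⟨fun n => (Nat.digits 6 n).all (fun d => d == 0 || d == 5), by simp, ?_⟩
  intro n r hr
  simp only
  rcases Nat.eq_zero_or_pos (6 * n + r) with h0 | h0
  · have hn : n = 0 := by omega
    have hr0 : r = 0 := by omega
    subst hn; subst hr0
    simp
  · have e : Nat.digits 6 (6 * n + r) = r :: Nat.digits 6 n := by
      rw [Nat.digits_of_two_le_of_pos (by norm_num) h0]
      congr 1
      · omega
      · congr 1; omega
    rw [e, List.all_cons, Bool.and_comm]

section word
variable {x : ℕ → Bool} (hx : IsFix x)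
include hx

lemma fix_block (k : ℕ) : ∀ q r : ℕ, r < 6 ^ k → x (6 ^ k * q + r) = (x q && x r) := by
  induction k with
  | zero =>
    intro q r hr
    have : r = 0 := by simpa using hr
    subst this
    simp [hx.1]
  | succ k ih =>
    intro q r hr
    have e1 : 6 * (r / 6) + r % 6 = r := Nat.div_add_mod r 6
    have hr6 : r % 6 < 6 := Nat.mod_lt _ (by norm_num)
    have hrk : r / 6 < 6 ^ k := by
      rw [Nat.div_lt_iff_lt_mul (by norm_num)]
      rwa [pow_succ] at hr
    have e2 : 6 ^ (k + 1) * q + r = 6 * (6 ^ k * q + r / 6) + r % 6 := by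
      rw [pow_succ]
      nlinarith [e1]
    rw [e2, hx.2 _ _ hr6, ih q (r / 6) hrk]
    conv_rhs => rw [← e1, hx.2 _ _ hr6]
    rw [Bool.and_assoc]

lemma fix_last (k : ℕ) : x (6 ^ k - 1) = true := by
  induction k with
  | zero => simpa using hx.1
  | succ k ih =>
    have h1 : 0 < 6 ^ k := by positivity
    have e : 6 ^ (k + 1) - 1 = 6 * (6 ^ k - 1) + 5 := by
      rw [pow_succ]; omega
    rw [e, hx.2 _ 5 (by norm_num), ih]
    rfl

lemma fix_div (k a : ℕ) (ha : x a = true) : x (a / 6 ^ k) = true := by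
  have h := fix_block hx k (a / 6 ^ k) (a % 6 ^ k) (Nat.mod_lt _ (by positivity))
  rw [Nat.div_add_mod, ha] at h
  have := h.symm
  rw [Bool.and_eq_true] at this
  exact this.1

lemma fix_digit (a : ℕ) (ha : x a = true) : x (a / 6) = true ∧ (a % 6 = 0 ∨ a % 6 = 5) := by
  have h := hx.2 (a / 6) (a % 6) (Nat.mod_lt _ (by norm_num))
  rw [Nat.div_add_mod, ha] at h
  have h' := h.symm
  rw [Bool.and_eq_true, Bool.or_eq_true, beq_iff_eq, beq_iff_eq] at h'
  exact h'

lemma fix_gap : ∀ b a : ℕ, a < b → x a = true → x b = true → a + 5 ≤ b := by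
  intro b
  induction b using Nat.strong_induction_on with
  | _ b ih =>
    intro a hab ha hb
    obtain ⟨ha1, ha2⟩ := fix_digit hx a ha
    obtain ⟨hb1, hb2⟩ := fix_digit hx b hb
    rcases Nat.lt_or_ge (a / 6) (b / 6) with h | h
    · have := ih (b / 6) (by omega) (a / 6) h ha1 hb1
      omega
    · omega

/-- two ones at a distance at most `4 · 6^k` lie in the same block of length `6^k` -/
lemma same_block {k a b : ℕ} (hab : a ≤ b) (hd : b ≤ a + 4 * 6 ^ k) (ha : x a = true)
    (hb : x b = true) : a / 6 ^ k = b / 6 ^ k := by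
  have hpos : 0 < 6 ^ k := by positivity
  have h1 := fix_div hx k a ha
  have h2 := fix_div hx k b hb
  have hle : a / 6 ^ k ≤ b / 6 ^ k := Nat.div_le_div_right hab
  rcases Nat.lt_or_ge (a / 6 ^ k) (b / 6 ^ k) with h | h
  · exfalso
    have h3 := fix_gap hx _ _ h h1 h2
    have h4 : 6 ^ k * (a / 6 ^ k) + a % 6 ^ k = a := Nat.div_add_mod a _
    have h5 : a % 6 ^ k < 6 ^ k := Nat.mod_lt _ hpos
    have h6 : 6 ^ k * (b / 6 ^ k) ≤ b := Nat.mul_div_le b _
    have h7 : 6 ^ k * (a / 6 ^ k + 5) ≤ 6 ^ k * (b / 6 ^ k) := Nat.mul_le_mul_left _ h3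
    rw [Nat.mul_add] at h7
    omega
  · omega

/-- the closed factors of length `n`, `3 · 6^k < n ≤ 4 · 6^k` -/
lemma closed_cases {k n i : ℕ} (h3 : 3 * 6 ^ k < n) (h4 : n ≤ 4 * 6 ^ k)
    (hc : Closed (fac x i n)) :
    fac x i n = fac (fun _ => false) 0 n ∨
    fac x i n = fac (fun t => if (n - 6 ^ k) / 2 ≤ t ∧ t < (n - 6 ^ k) / 2 + 6 ^ k then
      x (t - (n - 6 ^ k) / 2) else false) 0 n := by
  obtain ⟨N, hN⟩ : ∃ N, N = 6 ^ k := ⟨_, rfl⟩
  have hpos : 0 < N := by rw [hN]; positivity
  rw [← hN] at h3 h4 ⊢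
  obtain ⟨m, hmn, hb, hk⟩ := closed_fac x (by omega) hc
  by_cases hone : ∃ t < n, x (i + t) = true
  swap
  · left
    rw [fac_eq_iff]
    intro t ht
    push Not at hone
    simpa using hone t ht
  right
  -- first and last one
  classical
  obtain ⟨f, hf, hfmin⟩ : ∃ f, (f < n ∧ x (i + f) = true) ∧ ∀ t < f, x (i + t) = false := by
    refine ⟨Nat.find hone, Nat.find_spec hone, fun t ht => ?_⟩
    have h := Nat.find_min hone ht
    have h' : Nat.find hone < n := (Nat.find_spec hone).1
    by_contra h5
    exact h ⟨by omega, by simpa using h5⟩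
  obtain ⟨l, hl, hlmax⟩ : ∃ l, (l < n ∧ x (i + l) = true) ∧ ∀ t, l < t → t < n → x (i + t) = false := by
    obtain ⟨g, hg⟩ : ∃ g, (g < n ∧ x (i + (n - 1 - g)) = true) ∧
        ∀ t < g, x (i + (n - 1 - t)) = false := by
      have hone' : ∃ g, g < n ∧ x (i + (n - 1 - g)) = true := by
        obtain ⟨t, ht, ht'⟩ := hone
        exact ⟨n - 1 - t, by omega, by rwa [show n - 1 - (n - 1 - t) = t by omega]⟩
      refine ⟨Nat.find hone', Nat.find_spec hone', fun t ht => ?_⟩
      have h := Nat.find_min hone' ht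
      have h' : Nat.find hone' < n := (Nat.find_spec hone').1
      by_contra h5
      exact h ⟨by omega, by simpa using h5⟩
    refine ⟨n - 1 - g, ⟨by omega, hg.1.2⟩, fun t ht1 ht2 => ?_⟩
    have := hg.2 (n - 1 - t) (by omega)
    rwa [show n - 1 - (n - 1 - t) = t by omega] at this
  have hfl : f ≤ l := by
    by_contra h
    have := hlmax f (by omega) hf.1
    rw [this] at hf
    exact absurd hf.2 (by simp)
  -- they are in the same block
  have hblock : (i + f) / N = (i + l) / N := by
    rw [hN]
    exact same_block hx (by omega) (by rw [← hN]; omega) hf.2 hl.2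
  have hq1 : N * ((i + f) / N) ≤ i + f := Nat.mul_div_le _ _
  have hq2 : i + f < N * ((i + f) / N) + N := by
    have := Nat.lt_mul_div_succ (i + f) hpos
    rwa [Nat.mul_succ] at this
  have hq3 : N * ((i + l) / N) ≤ i + l := Nat.mul_div_le _ _
  have hq4 : i + l < N * ((i + l) / N) + N := by
    have := Nat.lt_mul_div_succ (i + l) hpos
    rwa [Nat.mul_succ] at this
  obtain ⟨Q, hQ⟩ : ∃ Q, Q = N * ((i + f) / N) := ⟨_, rfl⟩
  rw [← hblock] at hq3 hq4
  rw [← hQ] at hq1 hq2 hq3 hq4
  -- the border contains no one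
  have hmf : m ≤ f := by
    by_contra hmf
    push Not at hmf
    have h5 : x (i + ((n - m) + f)) = true := by
      rw [← Nat.add_assoc, hb f hmf]; exact hf.2
    have h6 : n - m + f ≤ l := by
      by_contra h
      have := hlmax (n - m + f) (by omega) (by omega)
      rw [h5] at this
      exact absurd this (by simp)
    have h7 : f < n - m := by
      by_contra h
      have h8 := hb (f - (n - m)) (by omega)
      rw [show i + (n - m) + (f - (n - m)) = i + f by omega, hf.2,
        hfmin (f - (n - m)) (by omega)] at h8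
      exact absurd h8 (by simp)
    -- the zeros on the right
    have h9 : x (i + (l - (n - m))) = true := by
      rw [← hb (l - (n - m)) (by omega), show i + (n - m) + (l - (n - m)) = i + l by omega]
      exact hl.2
    have h10 : m ≤ l := by
      by_contra h
      push Not at h
      have h11 := hb l h
      rw [hl.2, Nat.add_assoc, hlmax (n - m + l) (by omega) (by omega)] at h11
      exact absurd h11 (by simp)
    have h12 : f ≤ l - (n - m) := by
      by_contra h
      rw [hfmin _ (not_le.mp h)] at h9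
      exact absurd h9 (by simp)
    omega
  have hlm : l < n - m := by
    by_contra h
    push Not at h
    have h5 := hb (l - (n - m)) (by omega)
    rw [show i + (n - m) + (l - (n - m)) = i + l by omega, hl.2, hfmin _ (by omega)] at h5
    exact absurd h5 (by simp)
  have hfm : f = m := by
    by_contra hne
    obtain ⟨t, ht, ht'⟩ := hk 1 (by norm_num) (by omega)
    rw [Nat.add_assoc, hfmin (1 + t) (by omega), hfmin t (by omega)] at ht'
    exact ht' rfl
  have hjm : n - 1 - l = m := by
    by_contra hne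
    obtain ⟨t, ht, ht'⟩ := hk (n - m - 1) (by omega) (by omega)
    rw [Nat.add_assoc, hlmax (n - m - 1 + t) (by omega) (by omega), hfmin t (by omega)] at ht'
    exact ht' rfl
  -- the block is inside the window
  have hxQ : ∀ r < N, x (Q + r) = x r := by
    intro r hr
    have h := fix_block hx k ((i + f) / N) r (by rw [← hN]; exact hr)
    have h1 := fix_div hx k (i + f) hf.2
    rw [← hN] at h h1
    rw [← hQ, h1] at h
    simpa using h
  have hQi : i ≤ Q := by omega
  have hfQ : i + f = Q := by
    by_contra hne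
    have h5 : x (i + (Q - i)) = false := hfmin (Q - i) (by omega)
    have h6 := hxQ 0 hpos
    rw [show i + (Q - i) = Q + 0 by omega, h6, hx.1] at h5
    exact absurd h5 (by simp)
  have hlQ : i + l = Q + (N - 1) := by
    by_contra hne
    have h5 : x (i + (Q + (N - 1) - i)) = false := hlmax _ (by omega) (by omega)
    have h6 := hxQ (N - 1) (by omega)
    rw [show i + (Q + (N - 1) - i) = Q + (N - 1) by omega, h6, hN, fix_last hx k] at h5
    exact absurd h5 (by simp)
  have hhalf : (n - N) / 2 = f := by omega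
  rw [hhalf, fac_eq_iff]
  intro t ht
  rw [Nat.zero_add]
  split_ifs with hcase
  · have h5 := hxQ (t - f) (by omega)
    rwa [show Q + (t - f) = i + t by omega] at h5
  · rcases Nat.lt_or_ge t f with h | h
    · exact hfmin t h
    · exact hlmax t (by omega) ht

lemma cl_le {k n : ℕ} (h3 : 3 * 6 ^ k < n) (h4 : n ≤ 4 * 6 ^ k) : cl x n ≤ 2 := by
  unfold cl
  have hsub : {w : List Bool | (∃ i, w = fac x i n) ∧ Closed w} ⊆
      {fac (fun _ => false) 0 n, fac (fun t => if (n - 6 ^ k) / 2 ≤ t ∧
        t < (n - 6 ^ k) / 2 + 6 ^ k then x (t - (n - 6 ^ k) / 2) else false) 0 n} := by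
    rintro w ⟨⟨i, rfl⟩, hc⟩
    exact closed_cases hx h3 h4 hc
  refine (Set.encard_le_encard hsub).trans ((Set.encard_insert_le _ _).trans ?_)
  rw [Set.encard_singleton]
  norm_num

/-- there are ones arbitrarily far -/
lemma exists_one (k : ℕ) : x (5 * 6 ^ k) = true := by
  have h := fix_block hx k 5 0 (by positivity)
  have h5 : x 5 = true := by
    have := hx.2 0 5 (by norm_num)
    rw [hx.1] at this
    simpa using this
  rw [h5, hx.1] at h
  rw [Nat.mul_comm]
  simpa using h

lemma recurrent : Recurrent x := by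
  intro i n N
  obtain ⟨k, hk⟩ : ∃ k, i + n + N < 6 ^ k := ⟨i + n + N, Nat.lt_pow_self (by norm_num)⟩
  refine ⟨6 ^ k * 5 + i, by omega, ?_⟩
  rw [fac_eq_iff]
  intro t ht
  rw [Nat.add_assoc, fix_block hx k 5 (i + t) (by omega)]
  have h5 : x 5 = true := by
    have := hx.2 0 5 (by norm_num)
    rw [hx.1] at this
    simpa using this
  rw [h5, Bool.true_and]

lemma zero_run (k t : ℕ) (h1 : 6 ^ k ≤ t) (h2 : t < 5 * 6 ^ k) : x t = false := by
  by_contra h
  have h3 : x t = true := by simpa using h
  have h4 : x (6 ^ k - 1) = true := fix_last hx k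
  have hpos : 0 < 6 ^ k := by positivity
  have h5 := same_block hx (k := k) (a := 6 ^ k - 1) (b := t) (by omega) (by omega) h4 h3
  have h6 : (6 ^ k - 1) / 6 ^ k = 0 := Nat.div_eq_of_lt (by omega)
  have h7 : 1 ≤ t / 6 ^ k := (Nat.one_le_div_iff hpos).mpr h1
  omega

lemma aperiodic : Aperiodic x := by
  rintro ⟨p, N, hp, h⟩
  obtain ⟨k, hk⟩ : ∃ k, p + N < 6 ^ k := ⟨p + N, Nat.lt_pow_self (by norm_num)⟩
  -- zeros from `6^k` on
  have hz : ∀ t, 6 ^ k ≤ t → x t = false := by
    intro t
    induction t using Nat.strong_induction_on with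
    | _ t ih =>
      intro ht
      rcases Nat.lt_or_ge t (5 * 6 ^ k) with h1 | h1
      · exact zero_run hx k t ht h1
      · have h2 := h (t - p) (by omega)
        rw [show t - p + p = t by omega] at h2
        rw [h2]
        exact ih (t - p) (by omega) (by omega)
  have h3 := hz (5 * 6 ^ k) (by omega)
  rw [exists_one hx k] at h3
  exact absurd h3 (by simp)

end word

/-- the union of the intervals `(3 · 6^k, 4 · 6^k]` -/
def T : Set ℕ := {n | ∃ k : ℕ, 3 * 6 ^ k < n ∧ n ≤ 4 * 6 ^ k}

lemma thick_T : Thick T := by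
  intro l
  refine ⟨3 * 6 ^ l + 1, fun n h1 h2 => ⟨l, by omega, ?_⟩⟩
  have : l < 6 ^ l := Nat.lt_pow_self (by norm_num)
  omega

/-- There is a recurrent aperiodic binary word `x`, the fixed point of `1 ↦ 100001`, `0 ↦ 000000`,
and a thick (hence piecewise syndetic) set `S` such that `x` has at most two closed factors of
length `n` for every `n ∈ S`. In particular the statement `Q1` is false. -/
theorem result :
    (∃ x : ℕ → Bool, IsFix x ∧ Recurrent x ∧ Aperiodic x ∧
      ∃ S : Set ℕ, Thick S ∧ PiecewiseSyndetic S ∧ ∀ n ∈ S, cl x n ≤ 2) ∧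
    ¬ Q1 := by
  obtain ⟨x, hx⟩ := exists_fix
  have hps : PiecewiseSyndetic T :=
    ⟨Set.univ, T, ⟨1, fun a => ⟨a, trivial, le_rfl, by omega⟩⟩, thick_T, by simp⟩
  have hcl : ∀ n ∈ T, cl x n ≤ 2 := by
    rintro n ⟨k, h1, h2⟩
    exact cl_le hx h1 h2
  refine ⟨⟨x, hx, recurrent hx, aperiodic hx, T, thick_T, hps, hcl⟩, ?_⟩
  intro hQ
  obtain ⟨n, hn, _, h⟩ := hQ Bool x (aperiodic hx) T hps 3 0
  have := h.trans (hcl n hn)
  norm_num at this

end Pool.Agent.Results.MP_304c86_co.ThickCounterexample
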